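import Pool.Agent.MWC.StmtsB

/-!
# Block MWC, row NDA: necessity above (a') (helper28)
-/

set_option autoImplicit false

namespace Pool.Agent.MWC.H28

open Pool.Agent.Helper14_MV Pool.Agent.Helper2_MV Pool.Agent.MVO Pool.Agent.MWL Pool.Agent.MWA

theorem nda (hcr0 : Cr0Stmt) (hcba : CbaStmt) (hcbb : CbbStmt) (hcbc : CbcStmt) (hcbd : CbdStmt)
    (hcln : ClnStmt) : NdaStmt := by
  intro n β H
  have hLR : LRd n (FC.ofFIC β) := by simpa [LRr] using H.lr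
  refine ⟨hcr0 true n β H, ?_⟩
  obtain ⟨-, -, a3⟩ := hcba n β H
  obtain ⟨b1, b2, b3, b4⟩ := hcbb n β H
  obtain ⟨c1, c2, c3⟩ := hcbc n β H
  obtain ⟨d1, d2, d3, d4⟩ := hcbd n β H
  obtain ⟨⟨t1, t2, t3, t4, t5, t6, t7, t8⟩, ⟨u1, u2, u3, u4, u5⟩, w, v⟩ :=
    hcln n β H.iso H.cl hLR.pos
  obtain ⟨w1, w2, w3, w4, w5⟩ := w hLR
  by_cases hJ : HB true n β (Bit.J 3)
  · by_cases hD : HB true n β (Bit.D 0)
    · right
      refine ⟨w3 hD, ?_⟩
      rcases b4 hD with hE | h21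
      · exact Or.inl ⟨u4.1 hE, w2 hJ hD⟩
      · exact Or.inr ⟨w2 hJ hD, w4, w5 (t5.1 h21)⟩
    · left
      have h22 := b1.resolve_left hD
      have h02 := (b2 h22).resolve_left hD
      by_cases hD1 : HB true n β (Bit.D 1)
      · rcases b3 h22 with hE | h21
        · exact Or.inr (Or.inr (Or.inl ⟨u4.1 hE, u5.1 hJ, w1 hJ hD1, t3.1 a3, t6.1 h22⟩))
        · exact Or.inr (Or.inl ⟨t1.1 h02, t3.1 a3, u5.1 hJ, w1 hJ hD1, t5.1 h21⟩)
      · have h21 := d4.resolve_left hD1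
        exact Or.inl ⟨t1.1 h02, t3.1 a3, u5.1 hJ, t4.1 ((d3 h21).resolve_left hD1)⟩
  · left
    have h21 : BX β 1 [1, 1] [2, 1] := by
      by_cases hD : HB true n β (Bit.D 0)
      · exact (c2 hD).resolve_left hJ
      · exact (c1 (b1.resolve_left hD)).resolve_left hJ
    have h02 := (c3 h21).resolve_left hJ
    exact Or.inr (Or.inr (Or.inr ⟨t7.1 ((d1 h21 h02).resolve_left hJ),
      t8.1 ((d2 h02).resolve_left hJ)⟩))

end Pool.Agent.MWC.H28
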